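import Mathlib

/-!
# A weighted Hardy type inequality with the constant `5/3`

The inequality of `Pool.Agent.Helper242.RM.hardy` (there with the constant `5/2`), by the same
telescoping argument with the weights `(21 X_n - 11) / (4 ν)`, `X_n = n + ν`.
-/

set_option autoImplicit false

namespace Pool.Agent.Y858.RM

open Finset

theorem hardy_poly (a nu : ℝ) (ha : 0 ≤ a) (hnu : 0 ≤ nu) :
    0 ≤ (2 + a) * (1 + a + nu) ^ 2 * (nu * (17 * (1 + a + nu) - 11) + 11) *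
        (4 * (1 + a + nu) ^ 2 * (2 + a) * (2 * (1 + a + nu) + 5)
          - 3 * (21 * (1 + a + nu) - 11) * (347 / 1000 * nu))
      - 3 * nu * ((2 + a) * (1 + a + nu) * (4 * (1 + a + nu) ^ 2 + (21 * (1 + a + nu) - 11) / 2)
          + (21 * (1 + a + nu) - 11) * (347 / 1000 * nu) / 2) ^ 2 := by
  have h : (2 + a) * (1 + a + nu) ^ 2 * (nu * (17 * (1 + a + nu) - 11) + 11) *
        (4 * (1 + a + nu) ^ 2 * (2 + a) * (2 * (1 + a + nu) + 5)
          - 3 * (21 * (1 + a + nu) - 11) * (347 / 1000 * nu))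
      - 3 * nu * ((2 + a) * (1 + a + nu) * (4 * (1 + a + nu) ^ 2 + (21 * (1 + a + nu) - 11) / 2)
          + (21 * (1 + a + nu) - 11) * (347 / 1000 * nu) / 2) ^ 2 =
      (1232 : ℝ)
        + (237549/50 : ℝ) * nu ^ 1
        + (3196359/500 : ℝ) * nu ^ 2
        + (121316213/40000 : ℝ) * nu ^ 3
        + (15117233/200000 : ℝ) * nu ^ 4
        + (2989318893/4000000 : ℝ) * nu ^ 5
        + (596919/500 : ℝ) * nu ^ 6
        + (352 : ℝ) * nu ^ 7
        + (6512 : ℝ) * a ^ 1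
        + (5092627/250 : ℝ) * a ^ 1 * nu ^ 1
        + (21974391/1000 : ℝ) * a ^ 1 * nu ^ 2
        + (2253525433/200000 : ℝ) * a ^ 1 * nu ^ 3
        + (17661143893/2000000 : ℝ) * a ^ 1 * nu ^ 4
        + (18518859/2000 : ℝ) * a ^ 1 * nu ^ 5
        + (3764919/1000 : ℝ) * a ^ 1 * nu ^ 6
        + (352 : ℝ) * a ^ 1 * nu ^ 7
        + (14388 : ℝ) * a ^ 2
        + (7234721/200 : ℝ) * a ^ 2 * nu ^ 1
        + (34777647/1000 : ℝ) * a ^ 2 * nu ^ 2
        + (113447734893/4000000 : ℝ) * a ^ 2 * nu ^ 3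
        + (56255521/2000 : ℝ) * a ^ 2 * nu ^ 4
        + (7496463/500 : ℝ) * a ^ 2 * nu ^ 5
        + (2640 : ℝ) * a ^ 2 * nu ^ 6
        + (88 : ℝ) * a ^ 2 * nu ^ 7
        + (17160 : ℝ) * a ^ 3
        + (17732803/500 : ℝ) * a ^ 3 * nu ^ 1
        + (75946941/2000 : ℝ) * a ^ 3 * nu ^ 2
        + (83554169/2000 : ℝ) * a ^ 3 * nu ^ 3
        + (14725257/500 : ℝ) * a ^ 3 * nu ^ 4
        + (7920 : ℝ) * a ^ 3 * nu ^ 5
        + (528 : ℝ) * a ^ 3 * nu ^ 6
        + (11880 : ℝ) * a ^ 4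
        + (22446779/1000 : ℝ) * a ^ 4 * nu ^ 1
        + (62502831/2000 : ℝ) * a ^ 4 * nu ^ 2
        + (3856397/125 : ℝ) * a ^ 4 * nu ^ 3
        + (12320 : ℝ) * a ^ 4 * nu ^ 4
        + (1320 : ℝ) * a ^ 4 * nu ^ 5
        + (4752 : ℝ) * a ^ 5
        + (21097/2 : ℝ) * a ^ 5 * nu ^ 1
        + (16697919/1000 : ℝ) * a ^ 5 * nu ^ 2
        + (10560 : ℝ) * a ^ 5 * nu ^ 3
        + (1760 : ℝ) * a ^ 5 * nu ^ 4
        + (1012 : ℝ) * a ^ 6
        + (15221/4 : ℝ) * a ^ 6 * nu ^ 1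
        + (4752 : ℝ) * a ^ 6 * nu ^ 2
        + (1320 : ℝ) * a ^ 6 * nu ^ 3
        + (88 : ℝ) * a ^ 7
        + (880 : ℝ) * a ^ 7 * nu ^ 1
        + (528 : ℝ) * a ^ 7 * nu ^ 2
        + (88 : ℝ) * a ^ 8 * nu ^ 1 := by ring
  rw [h]
  positivity

/-- the numerical inequality -/
theorem hardy_num3 (n nu X N M K s : ℝ) (hn : 1 ≤ n) (hnu : 0 < nu) (hX : X = n + nu)
    (hN : N = n + 1) (hM : M = 21 * X - 11) (hK : K = nu * (17 * X - 11) + 11)
    (hs0 : 1 / 2 ≤ s) (hs1 : s ≤ 1) (hs : nu * s ^ 2 = (2 * s - 1) * (N * X)) :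
    0 ≤ (4 * X * (2 * X + 5) - 3 * M * (2 * s - 1)) * X * K
      - 3 * nu * (4 * X ^ 2 + M * s) ^ 2 := by
  have hX1 : 1 < X := by linarith
  have hXp : 0 < X := by linarith
  have hN2 : 2 ≤ N := by linarith
  have hNp : 0 < N := by linarith
  have hMp : 0 < M := by linarith
  have hKp : 0 < K := by
    have : 0 < nu * (17 * X - 11) := mul_pos hnu (by linarith)
    linarith
  have hNX : 2 * nu ≤ N * X := by nlinarith
  have hNXp : 0 < N * X := by positivity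
  have hs2 : s ≤ 589 / 1000 := by
    by_contra h
    push Not at h
    have h1 : (2 * s - 1) * (N * X) ≤ N * X / 2 * s ^ 2 := by
      rw [← hs]
      exact mul_le_mul_of_nonneg_right (by linarith) (sq_nonneg s)
    have h2 : (2 * s - 1) ≤ s ^ 2 / 2 := by
      by_contra h3
      push Not at h3
      nlinarith
    nlinarith
  obtain ⟨u, hu⟩ : ∃ u : ℝ, u = (2 * s - 1) * (N * X) := ⟨_, rfl⟩
  have hu0 : 0 ≤ u := by
    rw [hu]; exact mul_nonneg (by linarith) hNXp.le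
  have hu1 : u ≤ 347 / 1000 * nu := by
    rw [hu, ← hs]
    have h1 : s ^ 2 ≤ 347 / 1000 := by nlinarith
    nlinarith
  have hpol := hardy_poly (n - 1) nu (by linarith) hnu.le
  have eX : 1 + (n - 1) + nu = X := by rw [hX]; ring
  have eN : 2 + (n - 1) = N := by rw [hN]; ring
  rw [eX, eN, ← hM, ← hK] at hpol
  have h1 : N * X ^ 2 * K * (4 * X ^ 2 * N * (2 * X + 5) - 3 * M * (347 / 1000 * nu)) ≤
      N * X ^ 2 * K * (4 * X ^ 2 * N * (2 * X + 5) - 3 * M * u) := by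
    apply mul_le_mul_of_nonneg_left _ (by positivity)
    have := mul_le_mul_of_nonneg_left hu1 (by positivity : 0 ≤ 3 * M)
    linarith
  have h2 : (N * X * (4 * X ^ 2 + M / 2) + M * u / 2) ^ 2 ≤
      (N * X * (4 * X ^ 2 + M / 2) + M * (347 / 1000 * nu) / 2) ^ 2 := by
    apply pow_le_pow_left₀ (by positivity)
    have := mul_le_mul_of_nonneg_left hu1 hMp.le
    linarith
  have h3 := mul_le_mul_of_nonneg_left h2 (by positivity : 0 ≤ 3 * nu)
  have h4 : (N * X) ^ 2 * ((4 * X * (2 * X + 5) - 3 * M * (2 * s - 1)) * X * K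
      - 3 * nu * (4 * X ^ 2 + M * s) ^ 2) =
      N * X ^ 2 * K * (4 * X ^ 2 * N * (2 * X + 5) - 3 * M * u)
      - 3 * nu * (N * X * (4 * X ^ 2 + M / 2) + M * u / 2) ^ 2 := by
    rw [hu]; ring
  have h5 : 0 ≤ (N * X) ^ 2 * ((4 * X * (2 * X + 5) - 3 * M * (2 * s - 1)) * X * K
      - 3 * nu * (4 * X ^ 2 + M * s) ^ 2) := by
    rw [h4]; linarith
  exact nonneg_of_mul_nonneg_right h5 (by positivity)

theorem hardy_step_real3 (m : ℝ) (hnr : 1 ≤ m) (nu : ℝ) (hnu : 0 < nu)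
    (w w' d : ℝ)
    (hw : w = √((m + 1) / (m + 1 + nu))) (hw' : w' = √(m / (m + nu))) (hd : d = w - w')
    (U H : ℝ) :
    0 ≤ (5 / 3) * U ^ 2 - ((m + nu) / (m + 1)) * (w * U + H) ^ 2
      - ((21 * (m + nu) - 11) / (4 * nu)) * (H + d * U) ^ 2
      + ((21 * (m + 1 + nu) - 11) * (m + nu) / (4 * nu * (m + 1))) * H ^ 2 := by
  obtain ⟨X, hX⟩ : ∃ X : ℝ, X = m + nu := ⟨_, rfl⟩
  obtain ⟨N, hN⟩ : ∃ N : ℝ, N = m + 1 := ⟨_, rfl⟩
  obtain ⟨M, hM⟩ : ∃ M : ℝ, M = 21 * X - 11 := ⟨_, rfl⟩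
  obtain ⟨K, hK⟩ : ∃ K : ℝ, K = nu * (17 * X - 11) + 11 := ⟨_, rfl⟩
  have hXp : 0 < X := by linarith
  have hX1' : 1 < X := by linarith
  have hNp : 0 < N := by linarith
  have hX1 : 0 < X + 1 := by linarith
  have hKp : 0 < K := by
    have : 0 < nu * (17 * X - 11) := mul_pos hnu (by linarith)
    linarith
  have hw2 : w ^ 2 = N / (X + 1) := by
    rw [hw, Real.sq_sqrt (by positivity), hN, hX]
    congr 1; ring
  have hw'2 : w' ^ 2 = m / X := by
    rw [hw', Real.sq_sqrt (by positivity), hX]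
  have hwp : 0 < w := by
    rw [hw]; apply Real.sqrt_pos.2; positivity
  have hw'0 : 0 ≤ w' := by
    rw [hw']; exact Real.sqrt_nonneg _
  have hww : w' ≤ w := by
    apply le_of_sq_le_sq _ hwp.le
    rw [hw2, hw'2, div_le_div_iff₀ hXp hX1]
    nlinarith
  obtain ⟨e, he⟩ : ∃ e : ℝ, e = d / w := ⟨_, rfl⟩
  have hde : d = w * e := by rw [he]; field_simp
  have he0 : 0 ≤ e := by
    rw [he, hd]; apply div_nonneg (by linarith) hwp.le
  have hw'e : w' = w * (1 - e) := by linarith [hde, hd]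
  have he1 : e ≤ 1 := by
    by_contra h
    push Not at h
    nlinarith
  have hq : w' ^ 2 = w ^ 2 * (1 - e) ^ 2 := by rw [hw'e]; ring
  rw [hw2, hw'2] at hq
  have hE : e * (2 - e) * (N * X) = nu := by
    field_simp at hq
    nlinarith
  have h2e : 0 < 2 - e := by linarith
  obtain ⟨s, hs⟩ : ∃ s : ℝ, s = 1 / (2 - e) := ⟨_, rfl⟩
  have hs' : s * (2 - e) = 1 := by rw [hs]; field_simp
  have hs0 : e * s = 2 * s - 1 := by linear_combination -hs'
  have hsh : 1 / 2 ≤ s := by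
    rw [hs, div_le_div_iff₀ (by norm_num) h2e]
    linarith
  have hs1 : s ≤ 1 := by
    rw [hs, div_le_iff₀ h2e]
    linarith
  -- e = nu * s / (N * X)
  have hes : e * (N * X) = nu * s := by
    have : e * (N * X) * (s * (2 - e)) = nu * s := by
      linear_combination s * hE
    rw [hs'] at this
    linarith
  have hsq : nu * s ^ 2 = (2 * s - 1) * (N * X) := by
    linear_combination (N * X) * hs0 - s * hes
  have key := hardy_num3 m nu X N M K s hnr hnu hX hN hM hK hsh hs1 hsq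
  have hw2' : w ^ 2 * (X + 1) = N := by rw [hw2]; field_simp
  have hd2 : d ^ 2 = nu * (2 * s - 1) / (X * (X + 1)) := by
    rw [eq_div_iff (by positivity), hde]
    linear_combination e ^ 2 * X * hw2' + e * hes + nu * hs0
  have hes' : e = nu * s / (N * X) := by
    rw [eq_div_iff (by positivity)]
    exact hes
  obtain ⟨a, ha⟩ : ∃ a : ℝ, a = 5 / 3 - X / N * w ^ 2 - M / (4 * nu) * d ^ 2 := ⟨_, rfl⟩
  obtain ⟨b, hb⟩ : ∃ b : ℝ, b = X / N * w + M / (4 * nu) * d := ⟨_, rfl⟩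
  obtain ⟨c, hc⟩ : ∃ c : ℝ, c = K / (4 * nu * N) := ⟨_, rfl⟩
  have hcp : 0 < c := by rw [hc]; positivity
  have hform : (5 / 3) * U ^ 2 - ((m + nu) / (m + 1)) * (w * U + H) ^ 2
      - ((21 * (m + nu) - 11) / (4 * nu)) * (H + d * U) ^ 2
      + ((21 * (m + 1 + nu) - 11) * (m + nu) / (4 * nu * (m + 1))) * H ^ 2
      = a * U ^ 2 - 2 * b * U * H + c * H ^ 2 := by
    have h1 : m + 1 + nu = X + 1 := by linarith
    rw [h1, ← hX, ← hN, ha, hb, hc, hM, hK]
    have h2 : nu = X - m := by linarith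
    have h3 : N = m + 1 := hN
    have hnu0 : nu ≠ 0 := hnu.ne'
    have hN0 : N ≠ 0 := hNp.ne'
    field_simp
    rw [h3, h2]
    ring
  have ha' : a = (4 * X * (2 * X + 5) - 3 * M * (2 * s - 1)) / (12 * X * (X + 1)) := by
    rw [ha, hw2, hd2]
    field_simp
    ring
  have hb' : b ^ 2 = (4 * X ^ 2 + M * s) ^ 2 / (16 * N * X ^ 2 * (X + 1)) := by
    have hb2 : b ^ 2 = w ^ 2 * (X / N + M / (4 * nu) * e) ^ 2 := by
      rw [hb, hde]; ring
    rw [hb2, hw2, hes']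
    field_simp
    ring
  have hac : a * c - b ^ 2 = ((4 * X * (2 * X + 5) - 3 * M * (2 * s - 1)) * X * K
      - 3 * nu * (4 * X ^ 2 + M * s) ^ 2) / (48 * X ^ 2 * nu * N * (X + 1)) := by
    rw [ha', hb', hc]
    field_simp
    ring
  have hac0 : 0 ≤ a * c - b ^ 2 := by
    rw [hac]; positivity
  rw [hform]
  have : 0 ≤ c * (a * U ^ 2 - 2 * b * U * H + c * H ^ 2) := by
    have : c * (a * U ^ 2 - 2 * b * U * H + c * H ^ 2) = (c * H - b * U) ^ 2 + (a * c - b ^ 2) * U ^ 2 := by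
      ring
    rw [this]; positivity
  exact nonneg_of_mul_nonneg_right this hcp

/-- weighted Hardy type inequality; `g i = Γ(i+ν)/i!`. -/
theorem hardy3 (nu : ℝ) (hnu : 0 < nu) (g : ℕ → ℝ) (hg0 : 0 < g 0)
    (hg : ∀ i : ℕ, g (i + 1) = g i * (i + nu) / (i + 1)) (A : ℕ → ℝ) (N : ℕ) :
    (g 0 + g 1) * (∑ k ∈ Ico 0 N, √(((k : ℝ) + 1) / (k + 1 + nu)) * A k) ^ 2
      + ∑ i ∈ Ico 1 N, g (i + 1) * (∑ k ∈ Ico i N, √(((k : ℝ) + 1) / (k + 1 + nu)) * A k) ^ 2
      ≤ (5 / 3) * ∑ i ∈ Ico 0 N, g i * (∑ k ∈ Ico i N, A k) ^ 2 := by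
  have hgpos : ∀ i, 0 < g i := by
    intro i
    induction i with
    | zero => exact hg0
    | succ i ih =>
      rw [hg]
      positivity
  set w : ℕ → ℝ := fun k => √(((k : ℝ) + 1) / (k + 1 + nu)) with hw
  set U : ℕ → ℝ := fun i => ∑ k ∈ Ico i N, A k with hU
  set W : ℕ → ℝ := fun i => ∑ k ∈ Ico i N, w k * A k with hW
  have hUs : ∀ j, j < N → U j = A j + U (j + 1) := by
    intro j hj
    exact Finset.sum_eq_sum_Ico_succ_bot hj _
  have hWs : ∀ j, j < N → W j = w j * A j + W (j + 1) := by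
    intro j hj
    exact Finset.sum_eq_sum_Ico_succ_bot hj _
  have hUN : U N = 0 := by simp [hU]
  have hWN : W N = 0 := by simp [hW]
  have claim : ∀ m j : ℕ, 1 ≤ j → j + m = N →
      ((21 * (j + nu) - 11) * g j / (4 * nu)) * (W j - w (j - 1) * U j) ^ 2 ≤
        ∑ i ∈ Ico j N, (5 / 3 * (g i * U i ^ 2) - g (i + 1) * W i ^ 2) := by
    intro m
    induction m with
    | zero =>
      intro j hj hjN
      have : j = N := by omega
      subst this
      rw [hUN, hWN]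
      simp
    | succ m ih =>
      intro j hj hjN
      have hjlt : j < N := by omega
      rw [Finset.sum_eq_sum_Ico_succ_bot hjlt]
      have h1 := ih (j + 1) (by omega) (by omega)
      have hst := hardy_step_real3 j (by exact_mod_cast hj) nu hnu (w j) (w (j - 1))
        (w j - w (j - 1)) rfl (by
        have : ((j - 1 : ℕ) : ℝ) = j - 1 := by
          rw [Nat.cast_sub hj]; simp
        simp only [hw]
        rw [this]
        congr 1
        ring) rfl (U j) (W (j + 1) - w j * U (j + 1))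
      have e1 : w j * U j + (W (j + 1) - w j * U (j + 1)) = W j := by
        rw [hUs j hjlt, hWs j hjlt]; ring
      have e2 : (W (j + 1) - w j * U (j + 1)) + (w j - w (j - 1)) * U j = W j - w (j - 1) * U j := by
        rw [← e1]; ring
      rw [e1, e2] at hst
      have h2 := mul_nonneg (hgpos j).le hst
      have hj0 : (0:ℝ) < (j:ℝ) + 1 := by positivity
      have e3 : ((21 * (((j + 1 : ℕ) : ℝ) + nu) - 11) * g (j + 1) / (4 * nu)) =
          g j * ((21 * ((j:ℝ) + 1 + nu) - 11) * (j + nu) / (4 * nu * (j + 1))) := by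
        rw [hg]; push_cast; field_simp
      have e4 : g (j + 1) = g j * (((j:ℝ) + nu) / (j + 1)) := by
        rw [hg]; ring
      rw [e3] at h1
      simp only [Nat.add_sub_cancel] at h1
      have e5 : (21 * ((j:ℝ) + nu) - 11) * g j / (4 * nu) =
          g j * ((21 * (j + nu) - 11) / (4 * nu)) := by ring
      rw [e5, e4]
      nlinarith [h1, h2]
  rcases Nat.eq_zero_or_pos N with hN | hN
  · subst hN
    simp
  · have hc := claim (N - 1) 1 le_rfl (by omega)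
    have e0 : g 1 = g 0 * nu := by
      have := hg 0
      simpa using this
    have hW0 := hWs 0 hN
    have hU0 := hUs 0 hN
    have hw0 : w 0 ^ 2 * (1 + nu) = 1 := by
      simp only [hw]
      rw [Real.sq_sqrt (by positivity)]
      push_cast
      field_simp
      ring
    have hsplit : ∑ i ∈ Ico 0 N, g i * U i ^ 2 = g 0 * U 0 ^ 2 + ∑ i ∈ Ico 1 N, g i * U i ^ 2 :=
      Finset.sum_eq_sum_Ico_succ_bot hN _
    rw [Finset.sum_sub_distrib, ← Finset.mul_sum] at hc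
    show (g 0 + g 1) * (W 0) ^ 2 + ∑ i ∈ Ico 1 N, g (i + 1) * (W i) ^ 2 ≤ 5 / 3 * ∑ i ∈ Ico 0 N, g i * (U i) ^ 2
    rw [hsplit]
    simp only [zero_add] at hW0 hU0
    set H := W 1 - w 0 * U 1 with hH
    have e1 : W 0 = w 0 * U 0 + H := by rw [hW0, hU0, hH]; ring
    have e2 : (21 * (((1:ℕ):ℝ) + nu) - 11) * g 1 / (4 * nu) =
        (21 * (1 + nu) - 11) / 4 * g 0 := by
      rw [e0]; push_cast; field_simp
    rw [e2] at hc
    have e3 : 0 ≤ g 0 * (5 / 3 * U 0 ^ 2 - (1 + nu) * (w 0 * U 0 + H) ^ 2 +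
        (21 * (1 + nu) - 11) / 4 * H ^ 2) := by
      apply mul_nonneg hg0.le
      have : 5 / 3 * U 0 ^ 2 - (1 + nu) * (w 0 * U 0 + H) ^ 2 + (21 * (1 + nu) - 11) / 4 * H ^ 2 =
          2 / 3 * U 0 ^ 2 - 2 * ((1 + nu) * w 0) * U 0 * H + 3 / 2 * (1 + nu) * H ^ 2
          + 11 / 4 * nu * H ^ 2 + (1 - w 0 ^ 2 * (1 + nu)) * U 0 ^ 2 := by ring
      rw [this, hw0]
      have hs : ((1 + nu) * w 0) ^ 2 = 1 + nu := by
        calc ((1 + nu) * w 0) ^ 2 = (1 + nu) * (w 0 ^ 2 * (1 + nu)) := by ring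
          _ = 1 + nu := by rw [hw0, mul_one]
      have h11 : 0 ≤ 11 / 4 * nu * H ^ 2 := by positivity
      set s := (1 + nu) * w 0
      have h12 : 0 ≤ 2 / 3 * U 0 ^ 2 - 2 * s * U 0 * H + 3 / 2 * (1 + nu) * H ^ 2 := by
        rw [← hs]
        have : 2 / 3 * U 0 ^ 2 - 2 * s * U 0 * H + 3 / 2 * s ^ 2 * H ^ 2 =
            2 / 3 * (U 0 - 3 / 2 * (s * H)) ^ 2 := by ring
        rw [this]; positivity
      linarith
    rw [e1, e0]
    nlinarith [hc, e3]

end Pool.Agent.Y858.RM
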