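import Pool.Agent.Helper242.RM.L8
import Pool.Agent.Y858.RM.Hardy

/-!
# The shift inequality with the constant `87/50`

As `Pool.Agent.Helper242.RM.shift_norm` (there with `5/2`), from the Hardy type inequality `hardy3`.
-/

set_option autoImplicit false

namespace Pool.Agent.Y858.RM

open MeasureTheory Set Filter Topology Pool.Agent.Helper242.RM

/-- `(x + 5/3)(1 - e^{-x}) ≤ (87/50) x` -/
theorem tanh3 (x : ℝ) (hx : 0 < x) :
    (x + 5 / 3) * (1 - Real.exp (-x)) ≤ 87 / 50 * x := by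
  have hmono : MonotoneOn (fun y : ℝ => 87 / 50 * y - (y + 5 / 3) * (1 - Real.exp (-y)))
      (Ici 0) := by
    refine monotoneOn_of_deriv_nonneg (convex_Ici 0) (by fun_prop) (by fun_prop) ?_
    intro y hy
    have hd : HasDerivAt (fun y : ℝ => 87 / 50 * y - (y + 5 / 3) * (1 - Real.exp (-y)))
        (87 / 50 * 1 - ((1 + 0) * (1 - Real.exp (-y)) +
          (y + 5 / 3) * (0 - Real.exp (-y) * (-1)))) y := by
      have he : HasDerivAt (fun y : ℝ => Real.exp (-y)) (Real.exp (-y) * (-1)) y :=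
        (hasDerivAt_neg y).exp
      have h1 := (hasDerivAt_id y).const_mul (87 / 50 : ℝ)
      have h2 := ((hasDerivAt_id y).add (hasDerivAt_const y (5 / 3 : ℝ))).mul
        ((hasDerivAt_const y (1:ℝ)).sub he)
      exact h1.sub h2
    rw [hd.deriv]
    have h3 : y - 1 / 3 + 1 ≤ Real.exp (y - 1 / 3) := Real.add_one_le_exp _
    have h6 : (7 : ℝ) / 6 ≤ Real.exp (1 / 6) := by
      have := Real.add_one_le_exp (1 / 6 : ℝ)
      linarith
    have h7 : (49 : ℝ) / 36 ≤ Real.exp (1 / 3) := by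
      have e : Real.exp (1 / 3) = Real.exp (1 / 6) * Real.exp (1 / 6) := by
        rw [← Real.exp_add]; norm_num
      rw [e]
      nlinarith
    have h8 : Real.exp y = Real.exp (1 / 3) * Real.exp (y - 1 / 3) := by
      rw [← Real.exp_add]; congr 1; ring
    have h9 : 50 / 37 * (y + 2 / 3) ≤ Real.exp y := by
      rw [interior_Ici] at hy
      have hy' : 0 < y := hy
      rw [h8]
      calc 50 / 37 * (y + 2 / 3) ≤ 49 / 36 * (y + 2 / 3) := by nlinarith
        _ ≤ Real.exp (1 / 3) * (y + 2 / 3) := mul_le_mul_of_nonneg_right h7 (by linarith)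
        _ ≤ Real.exp (1 / 3) * Real.exp (y - 1 / 3) :=
            mul_le_mul_of_nonneg_left (by linarith) (Real.exp_pos _).le
    have h4 : Real.exp (-y) * (50 / 37 * (y + 2 / 3)) ≤ 1 := by
      calc Real.exp (-y) * (50 / 37 * (y + 2 / 3)) ≤ Real.exp (-y) * Real.exp y :=
          mul_le_mul_of_nonneg_left h9 (Real.exp_pos _).le
      _ = 1 := by rw [← Real.exp_add]; simp
    nlinarith
  have h := hmono (mem_Ici.2 le_rfl) (mem_Ici.2 hx.le) hx.le
  simp at h
  linarith

theorem le_wt3 (s x : ℝ) (hx : 0 < x) :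
    w0 s x + (5 / 3) * (w0 s x / x) ≤ (87 / 50) * wt s x := by
  unfold wt
  have h0 := w0_nonneg_7538 s x hx
  have h1 := E_lt_7538 x hx
  have h2 := tanh3 x hx
  have h4 : 1 + 5 / 3 / x ≤ 87 / 50 / (1 - Real.exp (-x)) := by
    rw [le_div_iff₀ h1]
    have : (1 + 5 / 3 / x) * (1 - Real.exp (-x)) = ((x + 5 / 3) * (1 - Real.exp (-x))) / x := by
      field_simp
    rw [this, div_le_iff₀ hx]
    exact h2
  calc w0 s x + (5 / 3) * (w0 s x / x) = w0 s x * (1 + 5 / 3 / x) := by ring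
    _ ≤ w0 s x * (87 / 50 / (1 - Real.exp (-x))) := mul_le_mul_of_nonneg_left h4 h0
    _ = _ := by ring

theorem shift_form3 (s : ℝ) (hs : 1 < s) (a : ℕ → ℝ) (N : ℕ) :
    IntegrableOn (fun x => (∑ k ∈ Finset.range N, a k * pk s (k + 1) x) ^ 2 * (w0 s x / x))
      (Ioi 0) ∧
    ∫ x in Ioi (0 : ℝ), (∑ k ∈ Finset.range N, a k * pk s (k + 1) x) ^ 2 * (w0 s x / x) ≤
      (5 / 3) * ∫ x in Ioi (0 : ℝ), (∑ k ∈ Finset.range N, a k * pk s k x) ^ 2 *
        (w0 s x / x) := by
  have hb1 := pk_form_integrable s hs (fun k : ℕ => if k = 0 then 0 else a (k - 1)) (N + 1)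
  have hb2 := pk_form s hs (fun k : ℕ => if k = 0 then 0 else a (k - 1)) (N + 1)
  simp only [shift_sum_7538] at hb1 hb2
  refine ⟨hb1, ?_⟩
  rw [hb2, pk_form s hs a N]
  have hcc : 0 < cc ^ (s + 1) := Real.rpow_pos_of_pos cc_pos _
  have hs0 : 0 < s := by linarith
  obtain ⟨nu, hnu⟩ : ∃ nu, nu = s - 1 := ⟨_, rfl⟩
  have hnu0 : 0 < nu := by rw [hnu]; linarith
  obtain ⟨g, hg⟩ : ∃ g : ℕ → ℝ, g = fun i : ℕ => Real.Gamma (i + (s - 1)) / i.factorial := ⟨_, rfl⟩
  have hX : ∀ i, ∑ k ∈ Finset.Ico (i + 1) (N + 1), (if k = 0 then 0 else a (k - 1)) / nk s k =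
      ∑ k ∈ Finset.Ico i N, √(((k : ℝ) + 1) / (k + 1 + nu)) * (a k / nk s k) := by
    intro i
    rw [← Finset.sum_Ico_add' (fun k => (if k = 0 then 0 else a (k - 1)) / nk s k) i N 1]
    refine Finset.sum_congr rfl fun k _ => ?_
    simp only [Nat.add_eq_zero_iff, one_ne_zero, and_false, if_false, Nat.add_sub_cancel]
    rw [nk_succ s hs0]
    have h1 : ((k : ℝ) + 1) / (k + 1 + nu) = ((k + s) / (k + 1))⁻¹ := by
      rw [inv_div, hnu]; congr 1; ring
    rw [h1, Real.sqrt_inv]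
    have h2 := (nk_pos s hs0 k).ne'
    have h3 : √((k + s) / (k + 1)) ≠ 0 := by
      have : (0 : ℝ) < (k + s) / (k + 1) := by positivity
      exact (Real.sqrt_pos.2 this).ne'
    field_simp
  have hX0 : ∑ k ∈ Finset.Ico 0 (N + 1), (if k = 0 then 0 else a (k - 1)) / nk s k =
      ∑ k ∈ Finset.Ico 0 N, √(((k : ℝ) + 1) / (k + 1 + nu)) * (a k / nk s k) := by
    rw [← hX 0, Finset.sum_eq_sum_Ico_succ_bot (by omega)]
    simp
  have hL : ∑ i ∈ Finset.range (N + 1), Real.Gamma (i + (s - 1)) / i.factorial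
          * (∑ k ∈ Finset.Ico i (N + 1), (if k = 0 then 0 else a (k - 1)) / nk s k) ^ 2 ≤
      (5 / 3) * ∑ i ∈ Finset.range N, Real.Gamma (i + (s - 1)) / i.factorial
          * (∑ k ∈ Finset.Ico i N, a k / nk s k) ^ 2 := by
    have hg0 : 0 < g 0 := by
      rw [hg]
      simp only [Nat.cast_zero, zero_add, Nat.factorial_zero, Nat.cast_one, div_one]
      exact Real.Gamma_pos_of_pos (by linarith)
    have hgs : ∀ i : ℕ, g (i + 1) = g i * (i + nu) / (i + 1) := by
      intro i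
      rw [hg, hnu]
      exact gam_7538 (s - 1) (by linarith) i
    have hh := hardy3 nu hnu0 g hg0 hgs (fun k => a k / nk s k) N
    rw [Finset.sum_range_succ']
    have hgi : ∀ i : ℕ, Real.Gamma (i + (s - 1)) / i.factorial = g i := fun i => by rw [hg]
    simp only [hgi, hX, hX0]
    rw [Finset.range_eq_Ico]
    rcases Nat.eq_zero_or_pos N with rfl | hN
    · simp
    · rw [Finset.sum_eq_sum_Ico_succ_bot hN]
      refine le_trans (le_of_eq ?_) hh
      ring
  calc cc ^ (s + 1) * ∑ i ∈ Finset.range (N + 1), Real.Gamma (i + (s - 1)) / i.factorial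
          * (∑ k ∈ Finset.Ico i (N + 1), (if k = 0 then 0 else a (k - 1)) / nk s k) ^ 2
      ≤ cc ^ (s + 1) * ((5 / 3) * ∑ i ∈ Finset.range N, Real.Gamma (i + (s - 1)) / i.factorial
          * (∑ k ∈ Finset.Ico i N, a k / nk s k) ^ 2) := mul_le_mul_of_nonneg_left hL hcc.le
    _ = _ := by ring

/-- the shift inequality -/
theorem shift_real3 (s : ℝ) (hs : 1 < s) (a : ℕ → ℝ) (N : ℕ) :
    ∑ k ∈ Finset.range N, ∑ l ∈ Finset.range N, a k * a l * V s (k + 1) (l + 1)
      ≤ (87 / 50) * ∑ k ∈ Finset.range N, ∑ l ∈ Finset.range N, a k * a l * V s k l := by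
  have h0 := form_eq_V s hs a N 0
  simp only [Nat.add_zero] at h0
  rw [← form_eq_V s hs a N 1, ← h0]
  obtain ⟨hf1, hf2⟩ := shift_form3 s hs a N
  have i1 := w0_int_7538 s hs a N 1
  have i0 := w0_int_7538 s hs a N 0
  have w1 := w0_form_7538 s hs a N 1
  have w00 := w0_form_7538 s hs a N 0
  have j0 := wt_int_7538 s hs a N 0
  simp only [Nat.add_zero] at i0 w00 j0
  have f0 := pk_form_integrable s hs a N
  calc ∫ x in Ioi (0 : ℝ), (∑ k ∈ Finset.range N, a k * pk s (k + 1) x) ^ 2 * wt s x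
      ≤ ∫ x in Ioi (0 : ℝ), ((∑ k ∈ Finset.range N, a k * pk s (k + 1) x) ^ 2 * w0 s x +
          (∑ k ∈ Finset.range N, a k * pk s (k + 1) x) ^ 2 * (w0 s x / x)) := by
        refine setIntegral_mono_on (wt_int_7538 s hs a N 1) (i1.add hf1) measurableSet_Ioi ?_
        intro x hx
        rw [← mul_add]
        exact mul_le_mul_of_nonneg_left (wt_le s x hx) (sq_nonneg _)
    _ = (∫ x in Ioi (0 : ℝ), (∑ k ∈ Finset.range N, a k * pk s (k + 1) x) ^ 2 * w0 s x) +
          ∫ x in Ioi (0 : ℝ), (∑ k ∈ Finset.range N, a k * pk s (k + 1) x) ^ 2 * (w0 s x / x) :=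
        integral_add i1 hf1
    _ ≤ (∫ x in Ioi (0 : ℝ), (∑ k ∈ Finset.range N, a k * pk s k x) ^ 2 * w0 s x) +
          (5 / 3) * ∫ x in Ioi (0 : ℝ), (∑ k ∈ Finset.range N, a k * pk s k x) ^ 2 *
            (w0 s x / x) := by
        rw [w1, w00]
        exact add_le_add_right hf2 _
    _ = ∫ x in Ioi (0 : ℝ), ((∑ k ∈ Finset.range N, a k * pk s k x) ^ 2 * w0 s x +
          (5 / 3) * ((∑ k ∈ Finset.range N, a k * pk s k x) ^ 2 * (w0 s x / x))) := by
        rw [integral_add i0 (f0.const_mul _), integral_const_mul]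
    _ ≤ ∫ x in Ioi (0 : ℝ), (87 / 50) * ((∑ k ∈ Finset.range N, a k * pk s k x) ^ 2 * wt s x) := by
        refine setIntegral_mono_on (i0.add (f0.const_mul _)) (j0.const_mul _) measurableSet_Ioi ?_
        intro x hx
        have h1 := mul_le_mul_of_nonneg_left (le_wt3 s x hx)
          (sq_nonneg (∑ k ∈ Finset.range N, a k * pk s k x))
        nlinarith
    _ = _ := integral_const_mul _ _

/-- the shift inequality for complex combinations -/
theorem shift_norm3 (s : ℝ) (hs : 1 < s) {H : Type*} [NormedAddCommGroup H] [InnerProductSpace ℂ H]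
    (q : ℕ → H) (hq : ∀ l k, inner ℂ (q l) (q k) = ((V s l k : ℝ) : ℂ)) (a : ℕ →₀ ℂ) :
    ‖a.sum (fun k z => z • q (k + 1))‖ ≤ √(87 / 50) * ‖a.sum (fun k z => z • q k)‖ := by
  obtain ⟨N, hN⟩ : ∃ N, a.support ⊆ Finset.range N := ⟨a.support.sup id + 1, fun k hk => by
    rw [Finset.mem_range]
    have := Finset.le_sup (f := id) hk
    simp only [id] at this
    omega⟩
  rw [Finsupp.sum_of_support_subset a hN _ (by simp), Finsupp.sum_of_support_subset a hN _ (by simp)]
  have h1 := norm_sq_comb (fun k => q (k + 1)) (fun l k => V s (l + 1) (k + 1)) (fun l k => hq _ _) a N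
  have h2 := norm_sq_comb q (V s) hq a N
  have h3 := shift_real3 s hs (fun k => (a k).re) N
  have h4 := shift_real3 s hs (fun k => (a k).im) N
  rw [← pow_le_pow_iff_left₀ (norm_nonneg _) (by positivity) two_ne_zero, mul_pow,
    Real.sq_sqrt (by norm_num), h1, h2]
  linarith

end Pool.Agent.Y858.RM
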