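import Pool.Agent.Helper242.RM.Fin2
import Pool.Agent.Y858.RM.Shift

/-!
# Ruelle–Mayer operators: a geometric gap between consecutive eigenvalues

Quantitative version of the comparison of the positive and the negative eigenvalues of
`Pool.Agent.Helper242.RM` (`claimA`, `claimB`).
-/

set_option autoImplicit false

namespace Pool.Agent.Y858.RM

open Module Module.End Pool.Agent.Helper242.RM

section abstract

variable {H : Type*} [NormedAddCommGroup H] [InnerProductSpace ℂ H] [CompleteSpace H]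

theorem form_gap {m m' r κ a b c t : ℝ} (hm' : 0 < m') (hr : 0 < r) (hT : r * t ^ 2 ≤ κ)
    (hκ : m' * κ < m) (h1 : m * b ^ 2 ≤ r * c) (h2 : a ≤ t * b) (ha : 0 < a) :
    m' * a ^ 2 < c := by
  have hb : 0 < b ^ 2 := by
    have : b ≠ 0 := by
      rintro rfl
      simp at h2
      linarith
    positivity
  have h3 : a ^ 2 ≤ t ^ 2 * b ^ 2 := by
    calc a ^ 2 ≤ (t * b) ^ 2 := pow_le_pow_left₀ ha.le h2 2
      _ = t ^ 2 * b ^ 2 := by ring
  have h4 : r * (m' * a ^ 2) < r * c := by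
    calc r * (m' * a ^ 2) ≤ r * (m' * (t ^ 2 * b ^ 2)) := by gcongr
      _ = m' * (r * t ^ 2) * b ^ 2 := by ring
      _ ≤ m' * κ * b ^ 2 := by gcongr
      _ < m * b ^ 2 := mul_lt_mul_of_pos_right hκ hb
      _ ≤ r * c := h1
  exact lt_of_mul_lt_mul_left h4 hr.le

omit [CompleteSpace H] in
theorem neg_symm {S : H →L[ℂ] H} (hS : (S : H →ₗ[ℂ] H).IsSymmetric) :
    ((-S : H →L[ℂ] H) : H →ₗ[ℂ] H).IsSymmetric := by
  intro x y
  have := hS x y
  simp only [ContinuousLinearMap.coe_coe] at this ⊢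
  simp only [ContinuousLinearMap.neg_apply, inner_neg_left, inner_neg_right, this]

omit [CompleteSpace H] in
theorem neg_cpt {S : H →L[ℂ] H} (hSc : IsCompactOperator S) :
    IsCompactOperator (-S : H →L[ℂ] H) := by
  have := hSc.neg
  exact this

/-- number of eigenvalues `≤ -m` against number of eigenvalues `> m'`, for `m' κ < m` -/
theorem gapA (S T : H →L[ℂ] H) (hSc : IsCompactOperator S)
    (hS : (S : H →ₗ[ℂ] H).IsSymmetric) (q : H) (L0 r κ : ℝ) (hL0 : 0 ≤ L0) (hr : 0 < r)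
    (hT : r * ‖T‖ ^ 2 ≤ κ)
    (hST : ∀ v, S v = (L0 : ℂ) • (inner ℂ q v) • q
      - (r : ℂ) • T (S (ContinuousLinearMap.adjoint T v))) (m m' : ℝ) (hm : 0 < m) (hm' : 0 < m')
    (hκ : m' * κ < m) :
    finrank ℂ (Eposc (-S) m) ≤ finrank ℂ (Epos S m') := by
  set E := Eposc (-S) m with hE
  have hnS := neg_symm hS
  have hnc := neg_cpt hSc
  haveI := finiteDimensional_Eposc (-S) hnc hnS m hm
  set f : E →ₗ[ℂ] H := (ContinuousLinearMap.adjoint T : H →ₗ[ℂ] H) ∘ₗ E.subtype with hf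
  have hfa : ∀ g : E, f g = ContinuousLinearMap.adjoint T (g : H) := fun g => rfl
  have hmain : ∀ g : E, m * ‖(g : H)‖ ^ 2 ≤ r * (inner ℂ (f g) (S (f g))).re := by
    intro g
    have h1 := Eposc_form (-S) hnS m g g.2
    have h2 := form_identity_7452 S T q L0 r hST (g : H)
    rw [ContinuousLinearMap.neg_apply, inner_neg_right, Complex.neg_re] at h1
    rw [hfa]
    have h3 : 0 ≤ L0 * ‖inner ℂ q (g : H)‖ ^ 2 := by positivity
    linarith
  have hinj : Function.Injective f := by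
    rw [injective_iff_map_eq_zero]
    intro g hg
    have h1 := hmain g
    rw [hg] at h1
    simp only [map_zero, inner_zero_right, Complex.zero_re, mul_zero] at h1
    have h2 : ‖(g : H)‖ ^ 2 ≤ 0 := by
      by_contra h3
      push Not at h3
      nlinarith
    have h3 : ‖(g : H)‖ = 0 := by nlinarith [norm_nonneg (g : H)]
    exact Subtype.ext (norm_eq_zero.1 h3)
  rw [← LinearMap.finrank_range_of_inj hinj]
  refine finrank_le_of_form S hSc hS m' hm' (LinearMap.range f) ?_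
  rintro w ⟨g, rfl⟩ hw
  have h1 := hmain g
  have h2 : ‖f g‖ ≤ ‖T‖ * ‖(g : H)‖ := by
    rw [hfa]
    have := (ContinuousLinearMap.adjoint T).le_opNorm (g : H)
    rwa [LinearIsometryEquiv.norm_map] at this
  exact form_gap hm' hr hT hκ h1 h2 (norm_pos_iff.2 hw)

/-- number of eigenvalues `≥ m` against number of eigenvalues `< -m'`, for `m' κ < m` -/
theorem gapB (S T : H →L[ℂ] H) (hSc : IsCompactOperator S)
    (hS : (S : H →ₗ[ℂ] H).IsSymmetric) (q : H) (L0 r κ : ℝ) (hr : 0 < r)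
    (hT : r * ‖T‖ ^ 2 ≤ κ)
    (hST : ∀ v, S v = (L0 : ℂ) • (inner ℂ q v) • q
      - (r : ℂ) • T (S (ContinuousLinearMap.adjoint T v))) (m m' : ℝ) (hm : 0 < m) (hm' : 0 < m')
    (hκ : m' * κ < m) :
    finrank ℂ (Eposc S m) ≤ finrank ℂ (Epos (-S) m') + 1 := by
  set E := Eposc S m with hE
  have hnS := neg_symm hS
  have hnc := neg_cpt hSc
  haveI := finiteDimensional_Eposc S hSc hS m hm
  set φ : E →ₗ[ℂ] ℂ := (innerSL ℂ q : H →ₗ[ℂ] ℂ) ∘ₗ E.subtype with hφ
  have hφa : ∀ g : E, φ g = inner ℂ q (g : H) := fun g => rfl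
  have hdim : finrank ℂ E ≤ finrank ℂ (LinearMap.ker φ) + 1 := by
    have h1 := LinearMap.finrank_range_add_finrank_ker φ
    have h2 : finrank ℂ (LinearMap.range φ) ≤ 1 := by
      have := Submodule.finrank_le (LinearMap.range φ)
      simpa using this
    omega
  refine hdim.trans (Nat.add_le_add_right ?_ 1)
  set f : LinearMap.ker φ →ₗ[ℂ] H :=
    (ContinuousLinearMap.adjoint T : H →ₗ[ℂ] H) ∘ₗ E.subtype ∘ₗ (LinearMap.ker φ).subtype with hf
  have hfa : ∀ g : LinearMap.ker φ, f g = ContinuousLinearMap.adjoint T ((g : E) : H) :=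
    fun g => rfl
  have hmain : ∀ g : LinearMap.ker φ, m * ‖((g : E) : H)‖ ^ 2 ≤
      r * (inner ℂ (f g) ((-S) (f g))).re := by
    intro g
    have h1 := Eposc_form S hS m (g : E) (g : E).2
    have h2 := form_identity_7452 S T q L0 r hST ((g : E) : H)
    have h3 : inner ℂ q ((g : E) : H) = 0 := by
      rw [← hφa]; exact g.2
    rw [h3] at h2
    rw [hfa, ContinuousLinearMap.neg_apply, inner_neg_right, Complex.neg_re]
    simp only [norm_zero] at h2
    linarith
  have hinj : Function.Injective f := by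
    rw [injective_iff_map_eq_zero]
    intro g hg
    have h1 := hmain g
    rw [hg] at h1
    simp only [map_zero, inner_zero_right, Complex.zero_re, mul_zero] at h1
    have h2 : ‖((g : E) : H)‖ ^ 2 ≤ 0 := by
      by_contra h3
      push Not at h3
      nlinarith
    have h3 : ‖((g : E) : H)‖ = 0 := by nlinarith [norm_nonneg ((g : E) : H)]
    exact Subtype.ext (Subtype.ext (norm_eq_zero.1 h3))
  rw [← LinearMap.finrank_range_of_inj hinj]
  refine finrank_le_of_form (-S) hnc hnS m' hm' (LinearMap.range f) ?_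
  rintro w ⟨g, rfl⟩ hw
  have h1 := hmain g
  have h2 : ‖f g‖ ≤ ‖T‖ * ‖((g : E) : H)‖ := by
    rw [hfa]
    have := (ContinuousLinearMap.adjoint T).le_opNorm ((g : E) : H)
    rwa [LinearIsometryEquiv.norm_map] at this
  exact form_gap hm' hr hT hκ h1 h2 (norm_pos_iff.2 hw)

omit [CompleteSpace H] in
theorem Epos_mono (S : H →L[ℂ] H) {m m' : ℝ} (h : m ≤ m') : Epos S m' ≤ Epos S m := by
  unfold Epos
  refine iSup_le fun t => ?_
  exact le_iSup (fun t : {t : ℝ // m < t} => eigenspace (S : End ℂ H) ((t : ℝ) : ℂ))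
    ⟨t.1, lt_of_le_of_lt h t.2⟩

/-- two simple eigenvalues of opposite signs differ at least by the factor `κ` -/
theorem gap_of_claims (S : H →L[ℂ] H) (hSc : IsCompactOperator S)
    (hS : (S : H →ₗ[ℂ] H).IsSymmetric) (κ : ℝ) (hκ1 : κ < 1)
    (hA : ∀ m m' : ℝ, 0 < m → 0 < m' → m' * κ < m →
      finrank ℂ (Eposc (-S) m) ≤ finrank ℂ (Epos S m'))
    (hB : ∀ m m' : ℝ, 0 < m → 0 < m' → m' * κ < m →
      finrank ℂ (Eposc S m) ≤ finrank ℂ (Epos (-S) m') + 1)
    (x y : ℝ) (hx : finrank ℂ (eigenspace (S : End ℂ H) (x : ℂ)) = 1)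
    (hy : finrank ℂ (eigenspace (S : End ℂ H) (y : ℂ)) = 1) (hxy : x * y < 0)
    (hlt : |y| < |x|) : |y| ≤ |x| * κ := by
  by_contra hcon
  push Not at hcon
  have hnS := neg_symm hS
  have hnc := neg_cpt hSc
  have e1 : ∀ m : ℝ, 0 < m → finrank ℂ (Eposc S m) = finrank ℂ (Epos S m) +
      finrank ℂ (eigenspace (S : End ℂ H) ((m : ℝ) : ℂ)) := fun m hm =>
    finrank_Eposc S hS m (finiteDimensional_Eposc S hSc hS m hm)
  have e2 : ∀ m : ℝ, 0 < m → finrank ℂ (Eposc (-S) m) = finrank ℂ (Epos (-S) m) +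
      finrank ℂ (eigenspace (S : End ℂ H) (((-m : ℝ)) : ℂ)) := fun m hm => by
    have := finrank_Eposc (-S) hnS m (finiteDimensional_Eposc (-S) hnc hnS m hm)
    rw [A6_neg] at this
    rw [Complex.ofReal_neg]
    exact this
  rcases lt_or_gt_of_ne (show x ≠ 0 by rintro rfl; simp at hxy) with hx0 | hx0
  · -- `x < 0 < y`
    have hy0 : 0 < y := by
      by_contra h
      push Not at h
      nlinarith
    rw [abs_of_neg hx0, abs_of_pos hy0] at hcon hlt
    have hx' : 0 < -x := by linarith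
    have b1 := hB y (-x) hy0 hx' hcon
    rw [e1 y hy0, hy] at b1
    have a1 := hA (-x) (-x) hx' hx' (by nlinarith)
    rw [e2 (-x) hx', neg_neg, hx] at a1
    haveI := finiteDimensional_Epos S hSc hS y hy0
    have c1 := Submodule.finrank_mono (Epos_mono S hlt.le)
    omega
  · -- `y < 0 < x`
    have hy0 : y < 0 := by
      by_contra h
      push Not at h
      nlinarith
    rw [abs_of_pos hx0, abs_of_neg hy0] at hcon hlt
    have hy' : 0 < -y := by linarith
    have a1 := hA (-y) x hy' hx0 hcon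
    rw [e2 (-y) hy', neg_neg, hy] at a1
    have b1 := hB x x hx0 hx0 (by nlinarith)
    rw [e1 x hx0, hx] at b1
    haveI := finiteDimensional_Epos (-S) hnc hnS (-y) hy'
    have c1 := Submodule.finrank_mono (Epos_mono (-S) hlt.le)
    omega

end abstract

/-- the constant `(87/50) θ²`, `θ = (√5 - 1)/2` -/
theorem const_le : (87 / 50 : ℝ) * th ^ 2 ≤ 2 / 3 := by
  have h : (2.236 : ℝ) < √5 := by
    rw [Real.lt_sqrt (by norm_num)]
    norm_num
  unfold th
  have h2 : √5 ^ 2 = (5 : ℝ) := Real.sq_sqrt (by norm_num)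
  nlinarith

theorem spectrum_gap (s : ℝ) (hs : 1 < s) :
    ∃ lam : ℕ → ℝ, (∀ j, |lam (j + 1)| < |lam j|) ∧ (∀ j, 0 < (-1 : ℝ) ^ j * lam j) ∧
      (∀ j, |lam (j + 1)| ≤ |lam j| * (2 / 3)) ∧
      (∀ j, HasEigenvalue (G s hs) (lam j : ℂ)) ∧
      (∀ j, finrank ℂ (maxGenEigenspace (G s hs) (lam j : ℂ)) = 1) ∧
      (∀ μ : ℂ, μ ≠ 0 → HasEigenvalue (G s hs) μ → ∃ j, μ = (lam j : ℂ)) := by
  obtain ⟨H, i1, i2, i3, q, d, hq, hqd⟩ := exists_model s hs
  have hth := th_pos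
  have hr : 0 < th ^ 2 := by positivity
  have hr1 : th ^ 2 < 1 := by have := th_sq_lt; linarith
  have hL0 : 0 < th ^ s := Real.rpow_pos_of_pos hth s
  obtain ⟨S, hSc, hSs, hS⟩ := exists_S q _ (q_norm_le s hs q hq) (th ^ s) (th ^ 2) hr hr1
  obtain ⟨T, hTn, hT⟩ := exists_shift q (√(87 / 50)) (Real.sqrt_nonneg _) (shift_norm3 s hs q hq)
  have hT' : th ^ 2 * ‖T‖ ^ 2 ≤ 2 / 3 := by
    have h1 : ‖T‖ ^ 2 ≤ 87 / 50 := by
      have := pow_le_pow_left₀ (norm_nonneg T) hTn 2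
      rwa [Real.sq_sqrt (by norm_num)] at this
    refine le_trans ?_ const_le
    calc th ^ 2 * ‖T‖ ^ 2 ≤ th ^ 2 * (87 / 50) := mul_le_mul_of_nonneg_left h1 hr.le
      _ = 87 / 50 * th ^ 2 := by ring
  have hκ1 : (2 / 3 : ℝ) < 1 := by norm_num
  have hST := S_shift q (th ^ s) (th ^ 2) S T hS hT
  have hA' : ∀ m m' : ℝ, 0 < m → 0 < m' → m' * (2 / 3) < m →
      finrank ℂ (Eposc (-S) m) ≤ finrank ℂ (Epos S m') := fun m m' hm hm' h =>
    gapA S T hSc hSs (q 0) (th ^ s) (th ^ 2) _ hL0.le hr hT' hST m m' hm hm' h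
  have hB' : ∀ m m' : ℝ, 0 < m → 0 < m' → m' * (2 / 3) < m →
      finrank ℂ (Eposc S m) ≤ finrank ℂ (Epos (-S) m') + 1 := fun m m' hm hm' h =>
    gapB S T hSc hSs (q 0) (th ^ s) (th ^ 2) _ hr hT' hST m m' hm hm' h
  have hA : ∀ m : ℝ, 0 < m → finrank ℂ (Eposc (-S) m) ≤ finrank ℂ (Epos S m) := fun m hm =>
    hA' m m hm hm (by nlinarith)
  have hB : ∀ m : ℝ, 0 < m → finrank ℂ (Eposc S m) ≤ finrank ℂ (Epos (-S) m) + 1 := fun m hm =>
    hB' m m hm hm (by nlinarith)
  have hinf := S_range q d hqd (th ^ s) (th ^ 2) hL0 hr S hS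
  obtain ⟨lam, h1, h2, h3, h4⟩ := interlace_of_claims S hSc hSs hA hB hinf
  have hgap : ∀ j, |lam (j + 1)| ≤ |lam j| * (2 / 3) := by
    intro j
    refine gap_of_claims S hSc hSs _ hκ1 hA' hB' _ _ (h3 j) (h3 (j + 1)) ?_ (h1 j)
    have e1 := h2 j
    have e2 := h2 (j + 1)
    have e3 : (-1 : ℝ) ^ j * (-1) ^ j = 1 := by
      rw [← mul_pow]
      norm_num
    have e4 := mul_pos e1 e2
    have e5 : (-1 : ℝ) ^ j * lam j * ((-1) ^ (j + 1) * lam (j + 1)) =
        -(((-1 : ℝ) ^ j * (-1) ^ j) * (lam j * lam (j + 1))) := by ring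
    rw [e5, e3] at e4
    linarith
  have hPhiG := Phi_G s hs q hq S hS
  have hinj := Phi_injective s hs q d hq hqd
  have hlam0 : ∀ j, lam j ≠ 0 := by
    intro j h0
    have := h2 j
    rw [h0] at this
    simp at this
  have hevS : ∀ j, HasEigenvalue (S : End ℂ H) (lam j : ℂ) := by
    intro j
    rw [hasEigenvalue_iff]
    intro hbot
    have := h3 j
    rw [hbot] at this
    simp at this
  have hevG : ∀ j, HasEigenvalue (G s hs) (lam j : ℂ) := fun j =>
    exists_eigenfunction s hs q hq S hS _ (by exact_mod_cast hlam0 j) (hevS j)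
  obtain ⟨lam', k1, k2, k3, k4, k5⟩ := spectrum_main s hs
  refine ⟨lam, h1, h2, hgap, hevG, ?_, ?_⟩
  · intro j
    obtain ⟨i, hi⟩ := k5 (lam j : ℂ) (by exact_mod_cast hlam0 j) (hevG j)
    rw [hi]
    exact k4 i
  · intro μ hμ hev
    obtain ⟨f, hf⟩ := hev.exists_hasEigenvector
    apply h4 μ hμ
    refine hasEigenvalue_of_hasEigenvector (x := Phi s hs q hq f) ?_
    rw [hasEigenvector_iff]
    refine ⟨?_, ?_⟩
    · rw [mem_eigenspace_iff]
      change S (Phi s hs q hq f) = _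
      rw [← hPhiG, hf.apply_eq_smul, map_smul]
    · intro h0
      rw [← map_zero (Phi s hs q hq)] at h0
      exact hf.2 (hinj h0)

/-- the eigenvalue list: ratio of consecutive eigenvalues, and completeness of the list -/
theorem list_gap (s : ℝ) (hs : 1 < s) (lam : ℕ+ → ℂ) (h : IsEigenvalueList s hs lam) :
    (∃ x : ℝ, 0 < x ∧ lam 1 = (x : ℂ)) ∧
    (∀ ν : ℂ, ν ≠ 0 → HasEigenvalue (G s hs) ν → ∃ j, lam j = ν) ∧
    ∀ j : ℕ+, ∃ ρ : ℝ, 0 < ρ ∧ ρ ≤ 2 / 3 ∧ lam (j + 1) = -(ρ : ℂ) * lam j := by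
  obtain ⟨lam0, h1, h2, hg, h3, h4, h5⟩ := spectrum_gap s hs
  have h0' : ∀ j, lam0 j ≠ 0 := by
    intro j h0
    have := h2 j
    rw [h0] at this
    simp at this
  have h0 : ∀ j, (lam0 j : ℂ) ≠ 0 := by
    intro j h
    exact h0' j (by exact_mod_cast h)
  have key := list_eq {μ | HasEigenvalue (G s hs) μ}
    (fun μ => finrank ℂ (maxGenEigenspace (G s hs) μ)) lam0 h1 h0 h3 h4 h5 lam h.ne_zero
    h.hasEigenvalue h.card h.antitone
  refine ⟨⟨lam0 0, by simpa using h2 0, ?_⟩, ?_, ?_⟩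
  · exact key 0
  · intro ν hν hev
    obtain ⟨j, hj⟩ := h5 ν hν hev
    exact ⟨Nat.succPNat j, (key j).trans hj.symm⟩
  · intro j
    have kj := key j.natPred
    rw [PNat.succPNat_natPred] at kj
    have kj1 := key (j.natPred + 1)
    have e : Nat.succPNat (j.natPred + 1) = j + 1 := by
      apply PNat.eq
      rw [Nat.succPNat_coe, PNat.add_coe, PNat.one_coe, Nat.succ_eq_add_one, PNat.natPred_add_one]
    rw [e] at kj1
    set n := j.natPred with hn
    refine ⟨|lam0 (n + 1)| / |lam0 n|, ?_, ?_, ?_⟩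
    · exact div_pos (abs_pos.2 (h0' _)) (abs_pos.2 (h0' _))
    · rw [div_le_iff₀ (abs_pos.2 (h0' _)), mul_comm]
      exact hg n
    · rw [kj, kj1]
      have e1 := h2 n
      have e2 := h2 (n + 1)
      have e3 : (-1 : ℝ) ^ n * (-1) ^ n = 1 := by
        rw [← mul_pow]
        norm_num
      have e4 : |lam0 n| = (-1) ^ n * lam0 n := by
        rw [← abs_of_pos e1, abs_mul, abs_pow, abs_neg, abs_one, one_pow, one_mul]
      have e5 : |lam0 (n + 1)| = (-1) ^ (n + 1) * lam0 (n + 1) := by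
        rw [← abs_of_pos e2, abs_mul, abs_pow, abs_neg, abs_one, one_pow, one_mul]
      have e6 : lam0 (n + 1) = -(|lam0 (n + 1)| / |lam0 n|) * lam0 n := by
        have h6 := h0' n
        have h7 : (-1 : ℝ) ^ n ≠ 0 := pow_ne_zero _ (by norm_num)
        rw [e4, e5, pow_succ]
        field_simp
      exact_mod_cast congrArg (fun t : ℝ => (t : ℂ)) e6

end Pool.Agent.Y858.RM
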